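import Mathlib
import Pool.Agent.U276.TP.Many

/-!
# Many elements with the same lower elements

Let `A` be a set of `k` elements of a finite poset `P` which have the same lower elements, and let `s`
be the number of elements above some but not all elements of `A`; nothing is assumed about the other
elements of `P`.  If `k + s + 1 ≤ (0.529 + 0.471 k) ^ 2`, the balance constant is at least
`1/3 + 1/12000`, and if `k + s + 1 ≤ (0.8003 + 0.1997 k) ^ 2`, it is at least `2/5`.  In particular the
`1/3 - 2/3` conjecture holds, with `1/3 + 1/12000`, for every poset with at least `5 d + 3` elements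
which have the same lower elements and each of which is below at most `d` elements (`d ≥ 1`).

Proof.  A negative correlation inequality: the sum over `A` of the probabilities that an element comes
immediately after its last lower element, times twice the mean height (above the last lower element)
plus two of the highest element of `A`, is at most `k + s + 1`; and a lower bound for the differences
of the mean heights of unbalanced pairs, added up with the inequality of Sedrakyan.
-/

set_option autoImplicit false

open Finset

namespace Pool.Agent.Results.MP_bd7e44_co.ManySameLower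

open Pool.Agent.H13R3.WB

/-- the number of elements above some but not all elements of `A` -/
noncomputable def separators {P : Type} [PartialOrder P] (A : Finset P) : ℕ :=
  Nat.card {w : P // (∃ a ∈ A, a < w) ∧ ∃ a ∈ A, ¬ a < w}

lemma separators_eq {P : Type} [Fintype P] [PartialOrder P] (A : Finset P) :
    separators A = (Pool.Agent.U276.TP.sep A).card := by
  classical
  unfold separators Pool.Agent.U276.TP.sep
  rw [Nat.card_eq_fintype_card, Fintype.card_subtype]

/-- **Many elements with the same lower elements.** -/
theorem result (P : Type) [Fintype P] [PartialOrder P] (A : Finset P) (hne : A.Nonempty)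
    (hA : ∀ a ∈ A, ∀ b ∈ A, ∀ w, w < a ↔ w < b) :
    ((A.card : ℝ) + separators A + 1 ≤ (529 / 1000 + 471 / 1000 * A.card) ^ 2 →
      1 / 3 + 1 / 12000 ≤ balance P) ∧
    ((A.card : ℝ) + separators A + 1 ≤ (8003 / 10000 + 1997 / 10000 * A.card) ^ 2 →
      2 / 5 ≤ balance P) ∧
    ∀ d : ℕ, 1 ≤ d → (∀ a ∈ A, Nat.card {w : P // a < w} ≤ d) → 5 * d + 3 ≤ A.card →
      1 / 3 + 1 / 12000 ≤ balance P := by
  classical
  have h1 : ((A.card : ℝ) + separators A + 1 ≤ (529 / 1000 + 471 / 1000 * A.card) ^ 2 →
      1 / 3 + 1 / 12000 ≤ balance P) := by
    intro h
    refine Pool.Agent.U276.TP.many1 P A hA hne ?_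
    rw [← separators_eq]
    refine h.trans (le_of_eq ?_)
    ring
  refine ⟨h1, ?_, ?_⟩
  · intro h
    refine Pool.Agent.U276.TP.many2 P A hA hne ?_
    rw [← separators_eq]
    refine h.trans (le_of_eq ?_)
    ring
  · intro d hd hdeg hk
    apply h1
    have hsub : Pool.Agent.U276.TP.sep A ⊆ A.biUnion (fun a => univ.filter (fun w => a < w)) := by
      intro w hw
      obtain ⟨⟨a, ha, haw⟩, -⟩ := (Finset.mem_filter.1 hw).2
      exact Finset.mem_biUnion.2 ⟨a, ha, Finset.mem_filter.2 ⟨mem_univ _, haw⟩⟩
    have h2 : (Pool.Agent.U276.TP.sep A).card ≤ A.card * d := by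
      refine (Finset.card_le_card hsub).trans (Finset.card_biUnion_le.trans ?_)
      refine (Finset.sum_le_sum (g := fun _ => d) fun a ha => ?_).trans (by simp)
      have := hdeg a ha
      rwa [Nat.card_eq_fintype_card, Fintype.card_subtype] at this
    have h3 : (separators A : ℝ) ≤ A.card * d := by
      rw [separators_eq]
      exact_mod_cast h2
    have hkR : (5 : ℝ) * d + 3 ≤ A.card := by exact_mod_cast hk
    have hdR : (1 : ℝ) ≤ d := by exact_mod_cast hd
    have h4 : (A.card : ℝ) * d ≤ A.card * ((A.card - 3) / 5) := by
      apply mul_le_mul_of_nonneg_left _ (by positivity)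
      linarith
    nlinarith

end Pool.Agent.Results.MP_bd7e44_co.ManySameLower
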