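import Pool.Agent.U653.NF.Main
import Pool.Agent.H931R3.Bal15

/-!
# A gap above `1/3` for N-free posets, and the `1/3`-`2/3` conjecture for their closure

A finite poset is N-free if its diagram contains no `N`: there are no elements `a`, `b`, `c`, `d` such
that `c` covers `a` and `b`, `d` covers `b`, and `a`, `d` are incomparable.  (These are the posets of
the arcs of the acyclic directed multigraphs, ordered by reachability.)  Zaguia (2012) proved the
`1/3`-`2/3` conjecture for them.  Here it is shown that there is an absolute constant `ε > 0` such that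
`δ(P) ≥ 1/3 + ε` for every N-free poset `P` all of whose maximal chains have the same length, except
the chains, and more generally for the N-free posets which do not have the structure `LowerEnd` at
both ends.  The conjecture holds for all posets of the closure of this class under disjoint sums,
direct sums and the passage from a member outside of `𝒟` to any poset with this member as an
autonomous subset, and there is the same gap outside of `𝒟` (the direct sums of points and copies of
the three-element poset `2 + 1`).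

Proof.  In an N-free poset two elements which have a common upper cover have the same upper covers.
Let `c` be minimal among the elements whose lower set is not a chain.  The elements covered by `c` have
chains below them and the same upper elements; if there is no such `c`, two maximal elements have
these properties.  Two elements of this kind form a good pair of the dual poset.  By the gap theorem for
good pairs (starting files, `GoodPairs`) there is a gap unless one of the two lower sets contains the
other and the exceptional structure described in `Bypass` occurs; if the maximal chains have the same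
length, then both lower sets have the same number of elements.  Three elements of this kind always
give a gap.
-/

set_option autoImplicit false

namespace Pool.Agent.Results.MP_bd7e44_co.NFreeGap

open Pool.Agent.H13R3.WB Pool.Agent.H931R3.Bal Pool.Agent.R636.BG Pool.Agent.N175.SO
open Pool.Agent.U653.NF

/-- The structure at the lower end: there is a bypass, and every element `c` which is minimal among the
elements with two incomparable elements below them covers exactly two elements, which form a
bypass. -/
def LowerEnd (P : Type) [PartialOrder P] : Prop :=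
  (∃ x y : P, Bypass x y) ∧
    ∀ c : P, ¬ ChainBelow c → (∀ b, b < c → ChainBelow b) →
      ∃ x y : P, x ≠ y ∧ Bypass x y ∧ ∀ w, w ⋖ c ↔ w = x ∨ w = y

/-- the smallest class of posets closed under isomorphism that contains the one-element poset and the
N-free posets which are graded or do not have the structure `LowerEnd` at both ends, is closed under
disjoint sums and direct sums, and contains every poset with an autonomous subset which is a member of
the class outside `𝒟` -/
def InN (P : Type) [PartialOrder P] : Prop :=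
  Pool.Agent.N175.SO.Closed
    (fun P _ => Nonempty P ∧ NFree P ∧ (Graded P ∨ ¬ LowerEnd P ∨ ¬ LowerEnd Pᵒᵈ)) P

theorem gap : ∃ ε : ℝ, 0 < ε ∧
    (∀ (P : Type) [Fintype P] [PartialOrder P], NFree P → (∃ u v : P, ¬ u ≤ v ∧ ¬ v ≤ u) →
      (Graded P → 1 / 3 + ε ≤ balance P) ∧
      (balance P < 1 / 3 + ε → LowerEnd P ∧ LowerEnd Pᵒᵈ)) ∧
    ∀ (R : Type) [Fintype R] [PartialOrder R], InN R → InD R ∨ 1 / 3 + ε ≤ balance R := by
  obtain ⟨ε₁, h1, -, -, c1⟩ := Pool.Agent.Results.MP_33fb9b_co.FewSeparators.result
  obtain ⟨ε₂, h2, g2⟩ := pair_gap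
  obtain ⟨ε, h0, m1, m2, m3⟩ : ∃ ε : ℝ, 0 < ε ∧ ε ≤ ε₁ ∧ ε ≤ ε₂ ∧ ε ≤ 1 / 200 := by
    refine ⟨min ε₁ (min ε₂ (1 / 200)), by positivity, min_le_left _ _, ?_, ?_⟩
    · exact le_trans (min_le_right _ _) (min_le_left _ _)
    · exact le_trans (min_le_right _ _) (min_le_right _ _)
  have hg : ∀ (P : Type) [Fintype P] [PartialOrder P], ∀ a b : Pᵒᵈ, GoodPair Pᵒᵈ a b →
      Exc Pᵒᵈ a b ∨ 1 / 3 + ε ≤ balance P := fun P _ _ a b hab =>
    ((g2 P).2.1 a b hab).imp id (fun h => by linarith)
  have ht : ∀ (P : Type) [Fintype P] [PartialOrder P], ∀ x y z : Pᵒᵈ, Near Pᵒᵈ x y →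
      Near Pᵒᵈ y z → Near Pᵒᵈ x z → 1 / 3 + ε ≤ balance P := fun P _ _ x y z a b c => by
    have := (g2 P).2.2.2 x y z a b c
    linarith
  have low : ∀ (P : Type) [Fintype P] [PartialOrder P], NFree P →
      (∃ u v : P, ¬ u ≤ v ∧ ¬ v ≤ u) → balance P < 1 / 3 + ε → LowerEnd P := by
    intro P _ _ hN hP hb
    refine ⟨?_, fun c hc hmin => fork hN.forks (hg P) (ht P) hb hc hmin⟩
    rcases gap_forks hN.forks (hg P) hP with h | h
    · linarith
    · exact h
  have both : ∀ (P : Type) [Fintype P] [PartialOrder P], NFree P →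
      (∃ u v : P, ¬ u ≤ v ∧ ¬ v ≤ u) → balance P < 1 / 3 + ε → LowerEnd P ∧ LowerEnd Pᵒᵈ := by
    intro P _ _ hN hP hb
    refine ⟨low P hN hP hb, ?_⟩
    have hne : Nonempty P := ⟨hP.choose⟩
    refine low Pᵒᵈ hN.dual ?_ ?_
    · obtain ⟨u, v, h3, h4⟩ := hP
      exact ⟨OrderDual.toDual u, OrderDual.toDual v, h4, h3⟩
    · rw [balance_dual P]
      exact hb
  have main : ∀ (P : Type) [Fintype P] [PartialOrder P], NFree P →
      (∃ u v : P, ¬ u ≤ v ∧ ¬ v ≤ u) → (Graded P ∨ ¬ LowerEnd P ∨ ¬ LowerEnd Pᵒᵈ) →
      1 / 3 + ε ≤ balance P := by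
    intro P _ _ hN hP hG
    by_contra hcon
    rw [not_le] at hcon
    obtain ⟨h3, h4⟩ := both P hN hP hcon
    rcases hG with h5 | h5 | h5
    · exact h5.no_bypass h3.1
    · exact h5 h3
    · exact h5 h4
  refine ⟨ε, h0, fun P _ _ hN hP => ⟨fun hG => main P hN hP (Or.inl hG), both P hN hP⟩, ?_⟩
  intro R _ _ hR
  refine (Closed.gap (c := 1 / 3 + ε) (by linarith) ?_ hR).2
  intro P iF iP hP
  obtain ⟨hne, hN, hG⟩ := hP
  refine ⟨hne, ?_⟩
  by_cases hinc : ∃ u v : P, ¬ u ≤ v ∧ ¬ v ≤ u
  · exact Or.inr (main P hN hinc hG)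
  · have hT : Tame P := by
      intro x y h3 h4
      exact absurd ⟨x, y, h3, h4⟩ hinc
    refine (c1 P (Closed.of P ⟨hne, Or.inl hT.close⟩)).imp id (fun h => by linarith)

/-- There is a gap above `1/3` for the graded N-free posets and for the N-free posets without the structure
`LowerEnd` at both ends; in the closure of this class every poset which is not a chain has two elements
with probabilities between `1/3` and `2/3`, and outside of `𝒟` there is the same gap. -/
theorem result : ∃ ε : ℝ, 0 < ε ∧
    (∀ (P : Type) [Fintype P] [PartialOrder P], NFree P → (∃ u v : P, ¬ u ≤ v ∧ ¬ v ≤ u) →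
      (Graded P → 1 / 3 + ε ≤ balance P) ∧
      (balance P < 1 / 3 + ε → LowerEnd P ∧ LowerEnd Pᵒᵈ)) ∧
    ∀ (R : Type) [Fintype R] [PartialOrder R], InN R → (∃ u v : R, ¬ u ≤ v ∧ ¬ v ≤ u) →
      (∃ x y : R, x ≠ y ∧ 1 / 3 ≤ prob R x y ∧ 1 / 3 ≤ prob R y x) ∧
      (¬ InD R → ∃ x y : R, x ≠ y ∧ 1 / 3 + ε ≤ prob R x y ∧ 1 / 3 + ε ≤ prob R y x) := by
  obtain ⟨ε, h0, h1, h2⟩ := gap
  have key : ∀ (R : Type) [Fintype R] [PartialOrder R] (c : ℝ), 0 < c → (∃ u v : R, ¬ u ≤ v ∧ ¬ v ≤ u) →
      c ≤ balance R → ∃ x y : R, x ≠ y ∧ c ≤ prob R x y ∧ c ≤ prob R y x := by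
    intro R _ _ c hc huv h
    have hne : Nonempty (R × R) := ⟨(huv.choose, huv.choose)⟩
    obtain ⟨⟨x, y⟩, hxy⟩ := exists_eq_ciSup_of_finite
      (f := fun p : R × R => min (prob R p.1 p.2) (prob R p.2 p.1))
    have h3 : c ≤ min (prob R x y) (prob R y x) := by
      refine h.trans (le_of_eq ?_)
      exact hxy.symm
    refine ⟨x, y, ?_, h3.trans (min_le_left _ _), h3.trans (min_le_right _ _)⟩
    rintro rfl
    have h4 := h3.trans (min_le_left _ _)
    rw [prob_eq rfl, pr_self] at h4
    linarith
  refine ⟨ε, h0, h1, fun R _ _ hR huv => ⟨key R (1 / 3) (by norm_num) huv ?_, fun hD =>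
    key R (1 / 3 + ε) (by linarith) huv ((h2 R hR).resolve_left hD)⟩⟩
  rcases h2 R hR with h | h
  · rcases InD_third h with h3 | h3
    · obtain ⟨u, v, h4, h5⟩ := huv
      exact absurd (h3 u v) (not_or.2 ⟨h4, h5⟩)
    · exact h3
  · linarith

end Pool.Agent.Results.MP_bd7e44_co.NFreeGap
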